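import Pool.Agent.Lib_helper77.KSZ.XBase
import Pool.Agent.Lib_helper77.KSZ.R3

/-!
# One form of degree `D >= 3` (MP_2c2240_ag, project KSY): definitions

`d : Fin 1 → ℕ`, `d 0 = a + 3`, number of variables `v = b + a + 3`.
-/

set_option autoImplicit false

namespace Pool.Agent.KSY

open MvPolynomial Pool.Agent.KSS Pool.Agent.KSX Pool.Agent.Lib_helper56.KSS Filter Topology
open Pool.Agent.Lib_helper80.KSX (subJ)

/-! ### jets -/

/-- `x0` is an initial degeneration of the jet `x` for the weights `ω` (this is the conclusion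
of `TIJ`) -/
def TL (k : Type) {F F0 V : Type} [Field k] [Field F] [Algebra k F] [Field F0] [Algebra k F0]
    {L : ℕ} (w ω : V → ℕ) (x : V → Fin L → F) (x0 : V → Fin L → F0) : Prop :=
  ∀ (P : MvPolynomial V k) (D χ : ℕ), IsWeightedHomogeneous w P D →
    (∀ d ∈ P.support, χ ≤ Finsupp.weight ω d) → ∀ l ≤ L,
    (PowerSeries.X : PowerSeries F) ^ l ∣ ev x P →
    (PowerSeries.X : PowerSeries F0) ^ l ∣ ev x0 (weightedHomogeneousComponent ω χ P)

/-- variables `x' : Fin b`, `u = inr 0`, `u' = inr 1`, and `Y = none` -/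
abbrev W2 (b : ℕ) : Type := Option (Fin b ⊕ Fin 2)

/-- variables `x' : Fin b`, `u = some none`, and `Z = none` -/
abbrev W3 (b : ℕ) : Type := Option (Option (Fin b))

/-- degrees: `Y` has degree `a + 1` -/
def w2 (a b : ℕ) : W2 b → ℕ := fun o => o.elim (a + 1) (fun _ => 1)

/-- degrees: `Z` has degree `a + 2` -/
def w3 (a b : ℕ) : W3 b → ℕ := fun o => o.elim (a + 2) (fun _ => 1)

/-- the one-parameter group with `u_r ↦ +1`, `Y ↦ -1` (plus the degree) -/
def om2 (a b : ℕ) (r : Fin 2) : W2 b → ℕ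
  | none => a
  | some (Sum.inl _) => 1
  | some (Sum.inr s) => if s = r then 2 else 1

/-- the one-parameter group with `u ↦ +1`, `Z ↦ -1` (plus the degree) -/
def om3 (a b : ℕ) : W3 b → ℕ
  | none => a + 1
  | some none => 2
  | some (some _) => 1

/-- monomials of degree `m` not divisible by `u u' Y` -/
def N2 (a b m : ℕ) : Set (W2 b →₀ ℕ) :=
  {δ | Finsupp.weight (w2 a b) δ = m ∧
    (δ none = 0 ∨ δ (some (Sum.inr 0)) = 0 ∨ δ (some (Sum.inr 1)) = 0)}

/-- monomials of degree `m` not divisible by `u Z` -/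
def N3 (a b m : ℕ) : Set (W3 b →₀ ℕ) :=
  {δ | Finsupp.weight (w3 a b) δ = m ∧ (δ none = 0 ∨ δ (some none) = 0)}

/-- the inclusion of the variables `x', u_s` where `s ≠ r` -/
def jr (b : ℕ) (r : Fin 2) : Option (Fin b) → Fin b ⊕ Fin 2 :=
  fun o => o.elim (Sum.inr (Fin.rev r)) Sum.inl

theorem jr_inj (b : ℕ) (r : Fin 2) : Function.Injective (jr b r) := by
  intro x y h
  cases x <;> cases y <;> simp_all [jr]

/-- the substitution `Z = u_r Y` -/
noncomputable def psi (k : Type) [Field k] (b : ℕ) (r : Fin 2) : W3 b → MvPolynomial (W2 b) k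
  | none => X (some (Sum.inr r)) * X none
  | some o => X (some (jr b r o))

/-- the relation `u u' Y + G(x', u, u') = 0` modulo `t^L` -/
def Rel2 (k : Type) {κ : Type} [Field k] [Field κ] [Algebra k κ] {b L : ℕ}
    (y : W2 b → Fin L → κ) (G : MvPolynomial (Fin b ⊕ Fin 2) k) : Prop :=
  (PowerSeries.X : PowerSeries κ) ^ L ∣
    arc (y (some (Sum.inr 0))) * arc (y (some (Sum.inr 1))) * arc (y none)
      + ev (fun i => y (some i)) G

/-- the relation `u Z + G(x', u) = 0` modulo `t^L` -/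
def Rel3 (k : Type) {κ : Type} [Field k] [Field κ] [Algebra k κ] {b L : ℕ}
    (z : W3 b → Fin L → κ) (G : MvPolynomial (Option (Fin b)) k) : Prop :=
  (PowerSeries.X : PowerSeries κ) ^ L ∣
    arc (z (some none)) * arc (z none) + ev (fun i => z (some i)) G

/-! ### stage 1: the special fibre `∏ y_l + G(x', u, u')` -/

section stage1

variable {V : Type} {a b : ℕ} (e : Fin (a + 2 + 1) ⊕ Fin b ≃ V)

/-- index (in `Fin (a + 3)`) of the separated coordinates `y_l` -/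
def il {a : ℕ} (l : Fin (a + 1)) : Fin (a + 2 + 1) := ⟨(l : ℕ), by omega⟩

/-- index (in `Fin (a + 3)`) of `u = inr 0` and `u' = inr 1` -/
def iu {a : ℕ} (s : Fin 2) : Fin (a + 2 + 1) := ⟨a + 1 + (s : ℕ), by omega⟩

/-- the inclusion of the variables `x', u, u'` -/
def emS : Fin b ⊕ Fin 2 → V := fun o => e (o.elim Sum.inr (fun s => Sum.inl (iu s)))

/-- weights of the torus acting on the `y_l`, `l < a + 1`, and on `z = none` -/
def omS (B : ℕ) : Option V → ℕ
  | none => B ^ (a + 1) + (a + 3) * CC a B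
  | some v => match e.symm v with
    | Sum.inr _ => CC a B
    | Sum.inl l => if (l : ℕ) < a then B ^ (l : ℕ) + CC a B
        else if (l : ℕ) = a then B ^ a else CC a B

/-- the substitution `Y = ∏_{l ≤ a} y_l` -/
noncomputable def psiY (k : Type) [Field k] : W2 b → MvPolynomial (Option V) k
  | none => ∏ l : Fin (a + 1), X (some (e (Sum.inl (il l))))
  | some i => X (some (emS e i))

end stage1

/-! ### numbers attached to the two paths -/

/-- stage 1: from `R` (in `b + a + 3` variables, `G = 0`) to the jet `(x', u, u', Y)`;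
`F2` are the dimensions of the filtration on the span of `N2`, `T2` its transcendence degree,
`oY` the order of `Y`, `e l` the orders of the `y_l` -/
structure Stg (d : Fin 1 → ℕ) (a b M0 : ℕ) (R : Rec 1) (F2 : ℕ → ℕ → ℕ) (T2 oY : ℕ)
    (e : Fin (a + 1) → ℕ) : Prop where
  e_le : ∀ l, e l ≤ R.L
  oY_eq : oY = min R.L (∑ l, e l)
  tau : R.τ + R.L + (∑ l, e l - R.L) ≤ T2 + (a + 1) * R.L
  fil : ∀ m ≤ M0, ∀ l, 1 ≤ l → l ≤ R.L →
    (R.fil m l : ℤ) ≤ NN d (b + a + 3) ∅ m - NN d (b + a + 3) Finset.univ m +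
      ∑ γ ∈ (Exps (a + 1) m).filter (fun γ => mina γ = 0),
        (F2 (m - ∑ i, γ i) (l - ∑ i, γ i * e i) : ℤ)

/-- a path: `u_r` and `Y` are separated (orders `eo`, `eY`), then `u` and `Z = u_r Y` (orders
`eu`, `eZ`); `Pb` is the record of `(x', u)` after the first step, `R1` the record of `x'` at the
end; `oo` is the order of `u_r` before the first step -/
structure Path (d : Fin 1 → ℕ) (a b L T2 oY oo : ℕ) (F2 F3 : ℕ → ℕ → ℕ) (R1 Pb : Rec 1)
    (eu eo eY eZ : ℕ) : Prop where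
  ofR : R1.Of d b
  LR : R1.L = L
  gR : R1.g 0 = min L (eu + eZ)
  ofP : Pb.Of d (b + 1)
  LP : Pb.L = L
  gP : min L (eo + eY) ≤ Pb.g 0
  eu_le : eu ≤ L
  eo_le : eo ≤ L
  eY_le : eY ≤ L
  eZ_le : eZ ≤ L
  Zge : min L (eo + eY) ≤ eZ
  oY_le : oY ≤ eY
  oo_le : oo ≤ eo
  tauR : T2 + (eo + eY - L) + (eu + eZ - L) ≤ R1.τ + 2 * L
  tauP : T2 ≤ Pb.τ + L + eu
  F2_le : ∀ m l, l ≤ L → F2 m l ≤ ∑ c ∈ Finset.range (m + 1), F3 (m - c) (l - c * eo)
    + ∑ c ∈ (Finset.Icc 1 m).filter (fun c => (a + 1) * c ≤ m), F3 (m - (a + 1) * c) (l - c * eY)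
  F3_le : ∀ m l, l ≤ L → F3 m l ≤ Pb.fil m l
    + ∑ c ∈ (Finset.Icc 1 m).filter (fun c => (a + 2) * c ≤ m),
        R1.fil (m - (a + 2) * c) (l - c * eZ)
  Pb_le : ∀ m l, l ≤ L → Pb.fil m l ≤ ∑ c ∈ Finset.range (m + 1), R1.fil (m - c) (l - c * eu)

/-- the inequality using both paths -/
def Star (a L : ℕ) (F2 F3 : ℕ → ℕ → ℕ) (P Pb : Rec 1) (w eY : ℕ) : Prop :=
  ∀ m l, l ≤ L → F2 m l ≤ P.fil m l
    + ∑ c ∈ (Finset.Icc 1 m).filter (fun c => (a + 2) * c ≤ m), Pb.fil (m - (a + 2) * c) (l - c * w)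
    + ∑ c ∈ (Finset.Icc 1 m).filter (fun c => (a + 1) * c ≤ m), F3 (m - (a + 1) * c) (l - c * eY)

/-- the orders of the `a + 3` coordinates at the end of a path (position `0`: `u`, position `1`:
`u_r`, then the `y_l`); the excess `eZ - (eo + eY)` is distributed: `t` goes to `u_r`, the rest
to the first `y_l` -/
def eh (a : ℕ) (e : Fin (a + 1) → ℕ) (eu eo eY eZ t : ℕ) : ℕ → ℕ := fun i =>
  if i = 0 then eu
  else if i = 1 then eo + t
  else if i = 2 then e 0 + (eY - ∑ l, e l) + ((eZ - (eo + eY)) - t)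
  else if h : i - 2 < a + 1 then e ⟨i - 2, h⟩ else 0

/-! ### the normal cone -/

/-- graded dimensions of the normal cone filtration -/
noncomputable def grN (d : Fin 1 → ℕ) (v : ℕ) (R0 : Rec 1) (η m l : ℕ) : ℤ :=
  ∑ c ∈ (Finset.range (m + 1)).filter (fun c => d 0 * c ≤ m),
    ((R0.fil (m - d 0 * c) (l - c * η) : ℤ) - NN d v ∅ (m - d 0 * c)
      + NN d v Finset.univ (m - d 0 * c))

/-- conclusions of the degeneration to the normal cone of `G = 0` -/
structure NC (d : Fin 1 → ℕ) (v : ℕ) (R R0 : Rec 1) (η : ℕ) : Prop where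
  of : R0.Of d v
  L_eq : R0.L = R.L
  g_eq : R0.g 0 = R.L
  g_le : R.g 0 ≤ η
  eta_le : η ≤ R.L
  tau_le : R.τ + η ≤ R0.τ + R.L
  fil_le : ∀ m l, l ≤ R.L → (R.fil m l : ℤ) ≤ grN d v R0 η m l

/-! ### sums -/

/-- `∑_{m ≤ M0} q^m ∑_{l=1}^L F m l` -/
noncomputable def LamF (q : ℝ) (M0 L : ℕ) (F : ℕ → ℕ → ℕ) : ℝ :=
  ∑ m ∈ Finset.range (M0 + 1), q ^ m * ∑ l ∈ Finset.Icc 1 L, (F m l : ℝ)

/-- `∑_{m ≤ M0} q^m F m 0` -/
noncomputable def H0F (q : ℝ) (M0 : ℕ) (F : ℕ → ℕ → ℕ) : ℝ :=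
  ∑ m ∈ Finset.range (M0 + 1), q ^ m * (F m 0 : ℝ)

end Pool.Agent.KSY
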